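import Mathlib
import Pool.Agent.Helper292.ForceCH
import Pool.Agent.TH567.Dia.Final

set_option autoImplicit false

open Set Topology Filter

namespace Pool.Agent.Results.MP_302921_gt.SquareTExtendial

open Pool.Agent.Helper292.ForceCH (Om OmegaOnePreserved DiamondHolds)

/-!
A separable compact space which is not metrizable and whose square is t-extendial, from diamond.

The space is the one-point compactification of a topology on `ω₁ × ℕ` such that for each level `l`
a continuous retraction maps the points of the levels below `l` to the level `l`.  The topology is
built by recursion on the levels; the colouring which defines the retraction to the level `l` is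
chosen so that each set of pairs guessed by the diamond sequence (and not concentrated on
retraction fibres) has all pairs of points of the level `l` in its closure.  So a closed subset of
the square either contains the square of a tail, or in the square of a tail it lies in the union of
the diagonal and the two axes.  The tails are retracts of the space.  In both cases a nonlinear
extender is written down explicitly.
-/

/-! ### Diamond -/

/-- `C` is a closed unbounded subset of `ω₁` (the sentence named by `IsClubName`) -/
def IsClub (C : Om → Prop) : Prop :=
  (∀ a : Om, ∃ b : Om, a < b ∧ C b) ∧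
    ∀ a : Om, (∃ b, b < a) → (∀ b : Om, b < a → ∃ c : Om, (b < c ∧ c < a) ∧ C c) → C a

/-- Jensen's diamond: the sentence which `DiamondHolds P` says is forced, evaluated in the
universe -/
def Diamond : Prop :=
  ∃ A : Om → Om → Prop, ∀ S : Om → Prop, ∀ C : Om → Prop,
    IsClub C → ∃ a : Om, C a ∧ ∀ b : Om, b < a → (S b ↔ A a b)

/-! ### The notions of the problem -/

/-- `C_p(Z)`: the continuous real functions on `Z` with the topology of pointwise convergence -/
abbrev Cp (Z : Type) [TopologicalSpace Z] : Type := {f : Z → ℝ // Continuous f}

/-- `Y` is t-embedded in `Z`: there is a continuous extender `C_p(Y) → C_p(Z)` -/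
def TEmbedded {Z : Type} [TopologicalSpace Z] (Y : Set Z) : Prop :=
  ∃ φ : Cp Y → Cp Z, Continuous φ ∧ ∀ (f : Cp Y) (y : Y), (φ f).1 y.1 = f.1 y

/-- `Z` is t-extendial: every closed subspace of `Z` is t-embedded in `Z` -/
def TExtendial (Z : Type) [TopologicalSpace Z] : Prop :=
  ∀ Y : Set Z, IsClosed Y → TEmbedded Y

/-- Diamond is forced by every condition of some notion of forcing which preserves `ω₁`, and
diamond implies that there is a separable compact Hausdorff space which is not metrizable and whose
square is t-extendial. -/
theorem result :
    (∃ (P : Type) (_ : Preorder P), Nonempty P ∧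
      ∀ p : P, p ∈ OmegaOnePreserved P ∧ p ∈ DiamondHolds P) ∧
    (Diamond → ∃ (X : Type) (_ : TopologicalSpace X), CompactSpace X ∧ T2Space X ∧
      TopologicalSpace.SeparableSpace X ∧ ¬ TopologicalSpace.MetrizableSpace X ∧
      TExtendial (X × X)) := by
  constructor
  · obtain ⟨P, i, h1, h2⟩ := Pool.Agent.Helper292.ForceCH.exists_forcing
    exact ⟨P, i, h1, fun p => ⟨(h2 p).1, (h2 p).2.1⟩⟩
  · rintro ⟨A, hA⟩
    obtain ⟨G, hG⟩ := Pool.Agent.TH567.Dia.exists_guess A hA
    obtain ⟨X, i, h1, h2, h3, h4, h5⟩ := Pool.Agent.TH567.Dia.exists_space hG
    exact ⟨X, i, h1, h2, h3, h4, h5⟩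

end Pool.Agent.Results.MP_302921_gt.SquareTExtendial
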